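import Pool.Agent.Work.MP_ede3c6_co.Embed

set_option autoImplicit false

namespace Pool.Agent.Work.MP_ede3c6_co.Old.ShortSpine

open Pool.Agent.Work.MP_ede3c6_co

/-- Exact embeddability of a caterpillar in `Q_n` whenever `Q_n` has a spread-3 path as long as
the spine, the resulting exact cubical dimension, and explicit ranges of spine lengths. -/
theorem result (k : ℕ) (a : ℕ → ℕ) :
    (∀ n, (cat k a).IsContained (cube n) → Run k a n) ∧
    (∀ n, Spread n k → Run k a n → (cat k a).IsContained (cube n)) ∧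
    (∀ n, k + 2 ≤ (n % 3 + 3) * 2 ^ (n / 3) ∨ (1 ≤ n ∧ 16 * n ^ 4 * (k + 2) ≤ 2 ^ n) →
      Spread n k) ∧
    (1 ≤ maxDeg k a → Spread (maxDeg k a) k →
      (Run k a (maxDeg k a) → cd k a = maxDeg k a) ∧
      (¬ Run k a (maxDeg k a) → cd k a = maxDeg k a + 1)) ∧
    (∀ n, maxDeg k a + 1 ≤ n → Spread n k → cd k a ≤ n) := by
  have h1 : ∀ n, (cat k a).IsContained (cube n) → Run k a n := by
    intro n h
    obtain ⟨x, y, hd⟩ := (contained_iff k a n).mp h
    exact run_of_data hd
  have h2 : ∀ n, Spread n k → Run k a n → (cat k a).IsContained (cube n) := fun n hS hR =>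
    (contained_iff k a n).mpr (data_of_run hS hR)
  refine ⟨h1, h2, ?_, ?_, ?_⟩
  · rintro n (h | ⟨hn, h⟩)
    · exact spread_third n k h
    · exact spread_poly n k h hn
  · intro hΔ hS
    constructor
    · intro hR
      apply IsLeast.csInf_eq
      exact ⟨⟨hΔ, h2 _ hS hR⟩, fun n hn => le_of_run (h1 n hn.2)⟩
    · intro hR
      apply IsLeast.csInf_eq
      refine ⟨⟨by omega, h2 _ hS.succ (run_of_lt le_rfl)⟩, fun n hn => ?_⟩
      have h3 := h1 n hn.2
      have h4 := le_of_run h3
      rcases h4.lt_or_eq with h5 | h5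
      · exact h5
      · exact absurd (h5 ▸ h3) hR
  · intro n hn hS
    exact Nat.sInf_le ⟨by omega, h2 n hS (run_of_lt hn)⟩

end Pool.Agent.Work.MP_ede3c6_co.Old.ShortSpine
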